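import Pool.Agent.helper70.BND.SpecH

/-!
# Project bnd (MP_376aaf_an), block H, row NPR: numbers of pairs
-/

set_option autoImplicit false

open scoped Topology
open Finset

namespace Pool.Agent.BND.EX

theorem NPR_cons (a b x : ℕ) (Y : List ℕ) :
    npr a b (x :: Y) = (if x = a then (Y.count b : ℤ) else 0) + npr a b Y := rfl

theorem NPR_count (b x : ℕ) (Y : List ℕ) :
    (((x :: Y).count b : ℕ) : ℤ) = (Y.count b : ℤ) + if x = b then 1 else 0 := by
  rw [List.count_cons]
  by_cases h : x = b
  · simp [h]
  · simp [h]

theorem NPR_append (a b : ℕ) (X Y : List ℕ) :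
    npr a b (X ++ Y) = npr a b X + npr a b Y + (X.count a : ℤ) * Y.count b := by
  induction X with
  | nil => simp [npr]
  | cons x X ih =>
    rw [List.cons_append, NPR_cons, NPR_cons, ih, NPR_count a x X, List.count_append]
    push_cast
    split_ifs <;> ring

theorem NPR : NPR_stmt := by
  intro a b
  refine ⟨NPR_append a b, ?_, ?_, ?_, ?_⟩
  · intro x W Y
    rw [NPR_append, NPR_cons, NPR_cons, NPR_append, NPR_count b x Y, List.count_append]
    push_cast
    split_ifs <;> ring
  · intro X Y Z
    rw [NPR_append, NPR_append, NPR_append, NPR_append, List.count_append, List.count_append]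
    push_cast
    ring
  · intro x Y Y' h
    rw [NPR_cons, NPR_cons, h.count_eq b]
    ring
  · intro x y Z
    rw [NPR_cons, NPR_cons, NPR_cons, NPR_cons, NPR_count, NPR_count]
    generalize ((Z.count b : ℕ) : ℤ) = c
    generalize npr a b Z = d
    split_ifs <;> omega

end Pool.Agent.BND.EX
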